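import Pool.Agent.Helper11.LT.F9
import Pool.Agent.Helper65.LU.Fd

/-!
PROJECT LT2, block F (arbitrary `a`, `b`): quasi-periodicity of the tau function. Port of Helper11/LT/T7, F9.
-/

namespace Pool.Agent.Helper11.LU

open Finset Filter Topology
open Pool.Agent.Helper34.LT hiding Mt tauF Fac
open Pool.Agent.Helper65.LU (gF Mt tauF Fac)
open Pool.Agent.Helper11.LT hiding tau_per Mt_shift Lm Lm_zero Lm_add Lm_neg_mul Lm_mul_neg Lm_comm Cm tr_Cm
  Cm' tr_Cm' Cm_add D_add D_zero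

noncomputable section

/-- the row sum of `Uw f` -/
private theorem T7_row (f : ℕ → ℂ) (M : Mat) (i k : ℕ) :
    mmul (Uw f) (wt M) i k = (2 : ℂ) ^ ((i : ℤ) - (k : ℤ)) * ∑' r, f r * M (i + r) k := by
  have h2 : (2 : ℂ) ≠ 0 := two_ne_zero
  have h1 : ∀ r, Uw f i r * wt M r k = (2 : ℂ) ^ ((i : ℤ) - (k : ℤ)) *
      ((if i ≤ r then f (r - i) else 0) * M r k) := by
    intro r
    have h3 : (2 : ℂ) ^ ((i : ℤ) - (k : ℤ)) =
        (2 : ℂ) ^ ((i : ℤ) - (r : ℤ)) * (2 : ℂ) ^ ((r : ℤ) - (k : ℤ)) := by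
      rw [← zpow_add₀ h2]
      congr 1
      ring
    unfold Uw wt
    rw [h3]
    ring
  unfold mmul
  simp only [h1]
  rw [tsum_mul_left]
  congr 1
  have hinj : Function.Injective fun r : ℕ => i + r := fun x y h => Nat.add_left_cancel h
  have h4 := hinj.tsum_eq (f := fun r => (if i ≤ r then f (r - i) else 0) * M r k) (by
    intro r hr
    rw [Function.mem_support] at hr
    by_cases hir : i ≤ r
    · exact ⟨r - i, Nat.add_sub_cancel' hir⟩
    · exfalso
      apply hr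
      rw [if_neg hir, zero_mul])
  rw [← h4]
  refine tsum_congr fun r => ?_
  rw [if_pos (Nat.le_add_right i r), Nat.add_sub_cancel_left]

theorem Mt_shift {q a b : ℕ} (hq : 1 ≤ q) (t v : Phi q a b → ℂ) {f fp : ℕ → ℂ} {Ph : Mat}
    (hP : Per q a b v f fp Ph) (j : ℕ) :
    colm (wt (Mt q a b (t + v))) j =
      mmul (mmul (Uw f) (wt (Mt q a b t))) (colm (wt Ph) j) := by
  have h2 : (2 : ℂ) ≠ 0 := two_ne_zero
  rw [mmul_colm]
  funext i k
  unfold colm
  split_ifs with hk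
  · have h1 : ∀ k, mmul (Uw f) (wt (Mt q a b t)) i k * wt Ph k j =
        (2 : ℂ) ^ ((i : ℤ) - (j : ℤ)) *
          ((∑' r, f r * cf q a b t (gF q a b + i + r) (nn q a b k)) * Ph k j) := by
      intro k
      rw [T7_row]
      have h3 : (2 : ℂ) ^ ((i : ℤ) - (j : ℤ)) =
          (2 : ℂ) ^ ((i : ℤ) - (k : ℤ)) * (2 : ℂ) ^ ((k : ℤ) - (j : ℤ)) := by
        rw [← zpow_add₀ h2]
        congr 1
        ring
      have h4 : ∀ r, Mt q a b t (i + r) k = cf q a b t (gF q a b + i + r) (nn q a b k) := by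
        intro r
        rw [add_assoc]
        rfl
      simp only [h4]
      unfold wt
      rw [h3]
      ring
    have h5 : mmul (mmul (Uw f) (wt (Mt q a b t))) (wt Ph) i j =
        ∑' k, mmul (Uw f) (wt (Mt q a b t)) i k * wt Ph k j := rfl
    rw [h5]
    simp only [h1]
    rw [tsum_mul_left, ← cf_shift hq t v hP]
    rfl
  · rfl

/-! ### the matrices of the problem -/

section Main

variable {q a b : ℕ} {U V : Mat} {K : (Phi q a b → ℂ) → Mat}

/-- `L t` -/
def Lm (h : Fac q a b U V K) (t : Phi q a b → ℂ) : bmG := ⟨Lw q a b t, h.bL t⟩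

theorem Lm_zero (h : Fac q a b U V K) : Lm h 0 = 1 := Subtype.ext h.L0

theorem Lm_add (h : Fac q a b U V K) (s t : Phi q a b → ℂ) : Lm h (s + t) = Lm h s * Lm h t :=
  Subtype.ext (h.Ladd s t)

theorem Lm_neg_mul (h : Fac q a b U V K) (t : Phi q a b → ℂ) : Lm h (-t) * Lm h t = 1 := by
  rw [← Lm_add, neg_add_cancel, Lm_zero]

theorem Lm_mul_neg (h : Fac q a b U V K) (t : Phi q a b → ℂ) : Lm h t * Lm h (-t) = 1 := by
  rw [← Lm_add, add_neg_cancel, Lm_zero]

/-- commutator with an upper triangular Toeplitz matrix -/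
theorem Lm_comm (h : Fac q a b U V K) {f : ℕ → ℂ}
    (hf : Summable fun k => ‖f k‖ * (2 : ℝ)⁻¹ ^ k) (P : bmG) (hP : P.1 = Uw f)
    (t : Phi q a b → ℂ) : Sm (P * Lm h t - Lm h t * P).1 := by
  have h1 := comm_sm hf (hl_summable t 4 (by norm_num))
  have h2 : (P * Lm h t - Lm h t * P).1 = mmul (Uw f) (Lw q a b t) - mmul (Lw q a b t) (Uw f) := by
    rw [← hP]
    rfl
  rw [h2]
  exact h1

/-- `L_{-t} P L_t P'` -/
def Cm (h : Fac q a b U V K) (P P' : bmG) (t : Phi q a b → ℂ) : bmG :=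
  Lm h (-t) * P * Lm h t * P'

theorem tr_Cm (h : Fac q a b U V K) {f : ℕ → ℂ}
    (hf : Summable fun k => ‖f k‖ * (2 : ℝ)⁻¹ ^ k) (P P' : bmG) (hP : P.1 = Uw f)
    (hPP : P * P' = 1) (t : Phi q a b → ℂ) : Tr (Cm h P P' t) := by
  have h1 : Cm h P P' t - 1 = Lm h (-t) * (P * Lm h t - Lm h t * P) * P' := by
    have h2 : Lm h (-t) * (Lm h t * P) * P' = 1 := by
      rw [← mul_assoc, Lm_neg_mul, one_mul, hPP]
    rw [mul_sub, sub_mul, h2, Cm, mul_assoc (Lm h (-t)) P]
  unfold Tr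
  rw [h1]
  exact sm_mulR (sm_mulL (Lm h (-t)).2 (Lm_comm h hf P hP t)) P'.2

/-- `P L_{-t} P' L_t` -/
def Cm' (h : Fac q a b U V K) (P P' : bmG) (t : Phi q a b → ℂ) : bmG :=
  P * Lm h (-t) * P' * Lm h t

theorem tr_Cm' (h : Fac q a b U V K) {f : ℕ → ℂ}
    (hf : Summable fun k => ‖f k‖ * (2 : ℝ)⁻¹ ^ k) (P P' : bmG) (hP : P.1 = Uw f)
    (hPP : P * P' = 1) (t : Phi q a b → ℂ) : Tr (Cm' h P P' t) := by
  have h1 : Cm' h P P' t - 1 = (P * Lm h (-t) - Lm h (-t) * P) * (P' * Lm h t) := by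
    have h2 : Lm h (-t) * P * (P' * Lm h t) = 1 := by
      rw [mul_assoc, ← mul_assoc P, hPP, one_mul, Lm_neg_mul]
    rw [sub_mul, h2, Cm']
    congr 1
    simp only [mul_assoc]
  unfold Tr
  rw [h1]
  exact sm_mulR (Lm_comm h hf P hP (-t)) (P' * Lm h t).2

theorem Cm_add (h : Fac q a b U V K) (P P' : bmG) (hPP : P' * P = 1) (s t : Phi q a b → ℂ) :
    Cm h P P' (s + t) = Lm h (-t) * Cm h P P' s * Lm h t * Cm h P P' t := by
  have h1 : Lm h (-(s + t)) = Lm h (-t) * Lm h (-s) := by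
    rw [← Lm_add]
    congr 1
    abel
  have h2 : Lm h t * (Lm h (-t) * (P * (Lm h t * P'))) = P * (Lm h t * P') := by
    rw [← mul_assoc, Lm_mul_neg, one_mul]
  have h3 : P' * (P * (Lm h t * P')) = Lm h t * P' := by
    rw [← mul_assoc, hPP, one_mul]
  simp only [Cm, h1, Lm_add, mul_assoc, h2, h3]

theorem D_add (h : Fac q a b U V K) {f : ℕ → ℂ}
    (hf : Summable fun k => ‖f k‖ * (2 : ℝ)⁻¹ ^ k) (P P' : bmG) (hP : P.1 = Uw f)
    (hPP : P * P' = 1) (hPP' : P' * P = 1) (s t : Phi q a b → ℂ) :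
    dt (Cm h P P' (s + t)) = dt (Cm h P P' s) * dt (Cm h P P' t) := by
  rw [Cm_add h P P' hPP', dt_mul (tr_conj (Lm_neg_mul h t) (tr_Cm h hf P P' hP hPP s))
    (tr_Cm h hf P P' hP hPP t), dt_conj (Lm_neg_mul h t) (Lm_mul_neg h t)
      (tr_Cm h hf P P' hP hPP s)]

theorem D_zero (h : Fac q a b U V K) (P P' : bmG) (hPP : P * P' = 1) :
    dt (Cm h P P' 0) = 1 := by
  have h1 : Cm h P P' 0 = 1 := by
    rw [Cm, neg_zero, Lm_zero, one_mul, mul_one, hPP]
  rw [h1, dt_one]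

end Main

theorem tau_per (q a b : ℕ) (hq : q ≠ 0) (ha : ¬ q ∣ a) (hb : ¬ q ∣ b) (hab : Nat.Coprime (a + b) q)
    (U V : Mat) (K : (Phi q a b → ℂ) → Mat) (h : Fac q a b U V K)
    (hne : ∃ t, tauF q a b t ≠ 0) (hdiff : Differentiable ℂ (tauF q a b))
    (v : Phi q a b → ℂ) (f fp : ℕ → ℂ) (Ph : Mat)
    (hP : Per q a b v f fp Ph) :
    ∃ (l : (Phi q a b → ℂ) →ₗ[ℂ] ℂ) (c : ℂ), ∀ z,
      tauF q a b (z + v) = Complex.exp (l z + c) * tauF q a b z := by
  have hq1 : 1 ≤ q := Nat.one_le_iff_ne_zero.2 hq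
  obtain ⟨t0, ht0⟩ := hne
  let P : bmG := ⟨Uw f, Uw_bd hP.sf⟩
  let P' : bmG := ⟨Uw fp, Uw_bd hP.sfp⟩
  have hPP : P * P' = 1 := by
    apply Subtype.ext
    show mmul (Uw f) (Uw fp) = mone
    rw [Uw_mul, ← Uw_one]
    congr 1
    funext n
    exact conv_of_inv hP.sf hP.sfp hP.inv n
  have hPP' : P' * P = 1 := by
    apply Subtype.ext
    show mmul (Uw fp) (Uw f) = mone
    rw [Uw_mul, ← Uw_one]
    congr 1
    funext n
    refine conv_of_inv hP.sfp hP.sf (fun s hs => ?_) n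
    rw [mul_comm]
    exact hP.inv s hs
  let X : (Phi q a b → ℂ) → bmG := fun t => ⟨mone + K t, bd_add bd_mone (sm_bd (h.sK t))⟩
  have hXs : ∀ t, (X t - 1).1 = K t := by
    intro t
    show mone + K t - mone = K t
    rw [add_sub_cancel_left]
  have hXT : ∀ t, Tr (X t) := by
    intro t
    unfold Tr
    rw [hXs]
    exact h.sK t
  have hXd : ∀ t, dt (X t) = tauF q a b t := by
    intro t
    unfold dt
    rw [hXs, h.tau]
  obtain ⟨Y0, hY0, hXY0, hYX0⟩ := exists_inv (h.sK t0) (by rw [← h.tau]; exact ht0)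
  let Y : bmG := ⟨mone + Y0, bd_add bd_mone (sm_bd hY0)⟩
  have hYT : Tr Y := by
    have h1 : (Y - 1).1 = Y0 := by
      show mone + Y0 - mone = Y0
      rw [add_sub_cancel_left]
    unfold Tr
    rw [h1]
    exact hY0
  have hXY : X t0 * Y = 1 := Subtype.ext hXY0
  have hYX : Y * X t0 = 1 := Subtype.ext hYX0
  let Um : bmG := ⟨U, h.bU⟩
  let Vm : bmG := ⟨V, h.bV⟩
  have hUV : Um * Vm = 1 := Subtype.ext h.UV
  have hVU : Vm * Um = 1 := Subtype.ext h.VU
  let A : (Phi q a b → ℂ) → bmG := fun t => Lm h t * X t * Um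
  have hA : ∀ t, (A t).1 = wt (Mt q a b t) := fun t => (h.fac t).symm
  -- the columns
  let E : ℕ → bmG := fun j => ⟨colm mone j, sm_bd (sm_colm (bdC_mone.2 j).1)⟩
  have hsQ : ∀ j, Summable fun i => ‖wt Ph i j‖ := by
    intro j
    have h1 := (hP.sPh j).mul_right ((2 : ℝ)⁻¹ ^ j)
    refine h1.congr fun i => ?_
    unfold wt
    rw [norm_mul, norm_zpow, Complex.norm_ofNat, zpow_sub₀ (by norm_num : (2 : ℝ) ≠ 0),
      zpow_natCast, zpow_natCast, inv_pow, div_eq_mul_inv]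
    ring
  let Q : ℕ → bmG := fun j => ⟨colm (wt Ph) j, sm_bd (sm_colm (hsQ j))⟩
  have hAE : ∀ (B : bmG) j, (B * E j).1 = colm B.1 j := by
    intro B j
    show mmul B.1 (colm mone j) = colm B.1 j
    rw [mmul_colm, mmul_mone]
  have hext : ∀ B C : bmG, (∀ j, B * E j = C * E j) → B = C := by
    intro B C hBC
    apply Subtype.ext
    apply ext_colm
    intro j
    rw [← hAE, ← hAE, hBC]
  have hshift : ∀ t j, A (t + v) * E j = P * A t * Q j := by
    intro t j
    apply Subtype.ext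
    rw [hAE, hA, Mt_shift hq1 t v hP j, ← hA]
    rfl
  let B0 : bmG := Vm * Y * Lm h (-t0)
  have hB0 : B0 * P' * (P * A t0) = 1 := by
    have h1 : B0 * P' * (P * A t0) = Vm * (Y * ((Lm h (-t0)) * ((P' * P) * (Lm h t0 * (X t0 * Um))))) := by
      simp only [B0, A, mul_assoc]
    rw [h1, hPP', one_mul, ← mul_assoc (Lm h (-t0)), Lm_neg_mul, one_mul, ← mul_assoc Y, hYX,
      one_mul, hVU]
  have key : ∀ t, A (t + v) = P * A t * (B0 * P' * A (t0 + v)) := by
    intro t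
    apply hext
    intro j
    rw [hshift]
    have h1 : P * A t * (B0 * P' * A (t0 + v)) * E j = P * A t * (B0 * P' * (A (t0 + v) * E j)) := by
      simp only [mul_assoc]
    rw [h1, hshift, ← mul_assoc (B0 * P'), hB0, one_mul]
  have hXA : ∀ t, X t = Lm h (-t) * A t * Vm := by
    intro t
    have h1 : Lm h (-t) * A t * Vm = (Lm h (-t) * Lm h t) * X t * (Um * Vm) := by
      simp only [A, mul_assoc]
    rw [h1, Lm_neg_mul, hUV, one_mul, mul_one]
  have hX : ∀ t, X (t + v) =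
      Lm h (-v) * (Cm h P P' t * (P * (X t * Y) * P') * Cm' h P P' t0) * Lm h v * X (t0 + v) := by
    intro t
    rw [hXA (t + v), key t, hXA (t0 + v)]
    have h1 : Lm h (-(t + v)) = Lm h (-v) * Lm h (-t) := by
      rw [← Lm_add]
      congr 1
      abel
    have h2 : Lm h (-(t0 + v)) = Lm h (-v) * Lm h (-t0) := by
      rw [← Lm_add]
      congr 1
      abel
    have h3 : Lm h v * (Lm h (-v) * (Lm h (-t0) * (A (t0 + v) * Vm))) =
        Lm h (-t0) * (A (t0 + v) * Vm) := by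
      rw [← mul_assoc, Lm_mul_neg, one_mul]
    have h4 : ∀ Z, Lm h t0 * (Lm h (-t0) * Z) = Z := fun Z => by
      rw [← mul_assoc, Lm_mul_neg, one_mul]
    have h5 : ∀ Z, P' * (P * Z) = Z := fun Z => by
      rw [← mul_assoc, hPP', one_mul]
    have h6 : ∀ Z, Um * (Vm * Z) = Z := fun Z => by
      rw [← mul_assoc, hUV, one_mul]
    simp only [h1, h2, Cm, Cm', B0, mul_assoc, h3, h4, h5, h6]
    simp only [A, mul_assoc, h6]
  let c : ℂ := dt Y * dt (Cm' h P P' t0) * tauF q a b (t0 + v)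
  have hD : ∀ t, tauF q a b (t + v) = dt (Cm h P P' t) * tauF q a b t * c := by
    intro t
    have hC := tr_Cm h hP.sf P P' rfl hPP t
    have hC' := tr_Cm' h hP.sf P P' rfl hPP t0
    have hXYt := tr_mul (hXT t) hYT
    have h1 := tr_conj hPP hXYt
    have h2 := tr_mul (tr_mul hC h1) hC'
    have h3 := tr_conj (Lm_neg_mul h v) h2
    rw [← hXd (t + v), hX t, dt_mul h3 (hXT _), dt_conj (Lm_neg_mul h v) (Lm_mul_neg h v) h2,
      dt_mul (tr_mul hC h1) hC', dt_mul hC h1, dt_conj hPP hPP' hXYt, dt_mul (hXT t) hYT,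
      hXd, hXd]
    simp only [c]
    ring
  have hc : c ≠ 0 := by
    intro hc
    apply ht0
    have h1 := hD (t0 - v)
    rw [hc, mul_zero, sub_add_cancel] at h1
    exact h1
  have hadd := D_add h hP.sf P P' rfl hPP hPP'
  have hzero := D_zero h P P' hPP
  have hDne : ∀ t, dt (Cm h P P' t) ≠ 0 := by
    intro t ht
    have h1 := hadd t (-t)
    rw [ht, zero_mul, add_neg_cancel, hzero] at h1
    exact one_ne_zero h1
  have hDd : Differentiable ℂ fun t => dt (Cm h P P' t) := by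
    have h1 : DifferentiableAt ℂ (fun t => dt (Cm h P P' t)) t0 := by
      have h2 : (fun t => dt (Cm h P P' t)) =ᶠ[𝓝 t0]
          fun t => tauF q a b (t + v) / (tauF q a b t * c) := by
        have h4 : ∀ᶠ t in 𝓝 t0, tauF q a b t ≠ 0 :=
          hdiff.continuous.continuousAt.eventually_ne ht0
        filter_upwards [h4] with t ht
        rw [hD t]
        field_simp
      refine DifferentiableAt.congr_of_eventuallyEq ?_ h2
      have h5 : DifferentiableAt ℂ (fun t : Phi q a b → ℂ => t + v) t0 :=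
        differentiableAt_id.add_const v
      have h6 : DifferentiableAt ℂ (fun t => tauF q a b (t + v)) t0 :=
        DifferentiableAt.comp (g := tauF q a b) (f := fun t => t + v) t0 (hdiff (t0 + v)) h5
      have h7 : DifferentiableAt ℂ (fun t => tauF q a b t * c) t0 := (hdiff t0).mul_const c
      have h8 : DifferentiableAt ℂ (fun x : ℂ => x⁻¹) (tauF q a b t0 * c) :=
        differentiableAt_inv (mul_ne_zero ht0 hc)
      have h9 : DifferentiableAt ℂ (fun t => (tauF q a b t * c)⁻¹) t0 :=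
        DifferentiableAt.comp (g := fun x : ℂ => x⁻¹) (f := fun t => tauF q a b t * c) t0 h8 h7
      simp only [div_eq_mul_inv]
      exact h6.mul h9
    intro x
    have h2 : (fun t => dt (Cm h P P' t)) =
        fun t => dt (Cm h P P' (t + (t0 - x))) * dt (Cm h P P' (x - t0)) := by
      funext t
      rw [← hadd]
      congr 2
      abel
    rw [h2]
    have h3 : DifferentiableAt ℂ (fun t => dt (Cm h P P' (t + (t0 - x)))) x := by
      have h4 : DifferentiableAt ℂ (fun t => dt (Cm h P P' t)) (x + (t0 - x)) := by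
        rw [add_sub_cancel]
        exact h1
      have h5 : DifferentiableAt ℂ (fun t : Phi q a b → ℂ => t + (t0 - x)) x :=
        differentiableAt_id.add_const (t0 - x)
      exact DifferentiableAt.comp (g := fun t => dt (Cm h P P' t)) (f := fun t => t + (t0 - x))
        x h4 h5
    exact h3.mul_const _
  obtain ⟨l, hl⟩ := exists_linear hDd hadd hzero
  refine ⟨l, Complex.log c, fun z => ?_⟩
  rw [hD z, Complex.exp_add, Complex.exp_log hc, ← hl]
  ring

end

end Pool.Agent.Helper11.LU
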