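import Pool.Agent.Helper93.LX.Vc

/-!
PROJECT LT2, block V: the product functions are linearly independent (target `V_ne` of
Helper34/LU/Tg.lean).
-/

set_option autoImplicit false

namespace Pool.Agent.Helper11.LU

open Finset Pool.Agent.Helper34.LT LTG Pool.Agent.Helper34.LU

noncomputable section

variable (q : ℕ) (s t : Finset ℕ) (ρ1 ρ2 : ℕ → ℂ) (κ1 : s → ℂ) (κ2 : t → ℂ)
  (c1 c2 : Polynomial ℤ → ℂ) (f : (s → ℂ) → ℂ) (g : (t → ℂ) → ℂ)

theorem V_ne (h1 : IsTh q s ρ1 κ1 c1 f) (h2 : IsTh q t ρ2 κ2 c2 g) (L : ℕ)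
    (b : JJ s t L → ℂ) (hb : b ≠ 0) : ∃ x, ∑ j, b j * Vx f g j x ≠ 0 := by
  obtain ⟨D1, hD1, hf1⟩ := h1.rt
  obtain ⟨D2, hD2, hf2⟩ := h2.rt
  by_contra hcon
  push Not at hcon
  apply hb
  have hi := Pool.Agent.Helper93.LX.prod_indep _ _
    (Pool.Agent.Helper93.LX.vx_indep D1 1 hD1 f hf1 h1.ne L)
    (Pool.Agent.Helper93.LX.vx_indep D2 1 hD2 g hf2 h2.ne L)
  rw [Fintype.linearIndependent_iff] at hi
  funext j
  refine hi b ?_ j
  funext x
  rw [Finset.sum_apply, Pi.zero_apply]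
  have h3 := hcon (Sum.elim
    (Sum.elim (fun u => x.1 (Sum.inl u)) (fun v => x.2 (Sum.inl v)))
    (Sum.elim (fun u => x.1 (Sum.inr u)) (fun v => x.2 (Sum.inr v))))
  rw [← h3]
  refine Finset.sum_congr rfl fun j _ => ?_
  rw [Pi.smul_apply, smul_eq_mul, Vx]
  have e1 : (Sum.elim (fun u : s => x.1 (Sum.inl u)) (fun u : s => x.1 (Sum.inr u)) :
      s ⊕ s → ℂ) = x.1 := by
    funext i
    rcases i with i | i <;> rfl
  have e2 : (Sum.elim (fun u : t => x.2 (Sum.inl u)) (fun u : t => x.2 (Sum.inr u)) :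
      t ⊕ t → ℂ) = x.2 := by
    funext i
    rcases i with i | i <;> rfl
  simp only [Sum.elim_inl, Sum.elim_inr]
  rw [e1, e2]

end

end Pool.Agent.Helper11.LU
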